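import Pool.Agent.Lib.MP_7f190d_al.Basic
import Pool.Agent.Lib.MP_7f190d_al.H50.IB

/-!
# MP_7f190d_al, module I-A: I1, I2, I3, I7
-/

set_option autoImplicit false

namespace Pool.Agent.Lib.MP_7f190d_al

namespace IA

open GMet

variable {V : Type}

/-- two points of geodesics from `x` to `y` whose distances from `x` differ by at most `s` -/
lemma close_of_btw_le {M : GMet V} {δ : ℕ} (hM : M.Hyp δ) {x y p q : V} (s : ℕ)
    (hp : M.Btw x p y) (hq : M.Btw x q y) (h1 : M.d x p ≤ M.d x q + s)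
    (h2 : M.d x q ≤ M.d x p + s) : M.d p q ≤ s + 4 * δ := by
  wlog h : M.d x p ≤ M.d x q generalizing p q
  · have := this hq hp h2 h1 (by omega)
    rw [M.symm]; exact this
  obtain ⟨w, hw, hxw⟩ := M.exists_pt x q (M.d x p) h
  have hw2 : M.Btw x w y := btw_trans_left hq hw
  have h3 := close_of_btw hM hp hw2 hxw.symm
  have hw' : M.d x w + M.d w q = M.d x q := hw
  have := M.tri p w q
  omega

variable {G : Type} [Group G] [MulAction G V]

/-- the signed shift -/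
lemma shift {M : GMet V} {δ : ℕ} (hM : M.Hyp δ) (hI : Iso G M) (g : G) (x y p : V) (R : ℕ)
    (hx : M.d x (g • x) ≤ R) (hy : M.d y (g • y) ≤ R) (hp : M.Btw x p y)
    (h1 : R + 2 * δ ≤ M.d x p) (h2 : R + 2 * δ ≤ M.d p y) :
    ∃ q, M.Btw x q y ∧ M.d (g • p) q ≤ 8 * δ ∧ M.d x q ≤ M.d x p + R ∧ M.d x p ≤ M.d x q + R ∧
      M.d x (g • y) ≤ M.d x q + M.d p y ∧ M.d x q + M.d p y ≤ M.d x (g • y) + 2 * δ := by
  have hp' : M.d x p + M.d p y = M.d x y := hp
  have i1 := hI g x y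
  have i2 := hI g x p
  have i3 := hI g p y
  -- upper bound for the sum
  have a1 := hM x y (g • y) (g • x)
  -- upper bound for `d x gp`
  have a2 := hM x (g • x) (g • p) (g • y)
  have a3 := hM y (g • y) (g • p) (g • x)
  have t1 := M.tri x (g • p) (g • y)
  have t2 := M.tri y (g • p) (g • x)
  have t3 := M.tri x (g • x) (g • p)
  have t4 := M.tri (g • x) x (g • p)
  have t5 := M.tri x y (g • y)
  have t6 := M.tri y x (g • x)
  have t7 := M.tri x (g • y) y
  have t8 := M.tri y (g • x) x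
  have s1 := M.symm (g • y) (g • x)
  have s2 := M.symm (g • x) x
  have s3 := M.symm (g • y) (g • p)
  have s4 := M.symm (g • p) (g • x)
  have s5 := M.symm (g • y) y
  have s6 := M.symm y x
  obtain ⟨q, hq, hxq⟩ := M.exists_pt x y (M.d x (g • p)) (by omega)
  have hq' : M.d x q + M.d q y = M.d x y := hq
  refine ⟨q, hq, ?_, by omega, by omega, by omega, by omega⟩
  have a4 := hM (g • p) x q y
  have s7 := M.symm (g • p) x
  have s8 := M.symm (g • p) y
  omega

/-- the two shifts -/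
lemma shift_bounds {M : GMet V} {δ : ℕ} (hM : M.Hyp δ) (hI : Iso G M) (g : G) (x y : V) (R : ℕ)
    (hx : M.d x (g • x) ≤ R) (hy : M.d y (g • y) ≤ R) (h1 : 2 * R + 2 * δ ≤ M.d x y) :
    M.d x (g • y) + M.d x (g⁻¹ • y) ≤ 2 * M.d x y + 2 * δ ∧
    2 * M.d x y ≤ M.d x (g • y) + M.d x (g⁻¹ • y) + 2 * δ ∧
    M.d x (g • y) ≤ M.d x y + R ∧ M.d x y ≤ M.d x (g • y) + R ∧
    M.d x (g⁻¹ • y) ≤ M.d x y + R ∧ M.d x y ≤ M.d x (g⁻¹ • y) + R := by
  have i1 := hI g x y
  have i2 := hI g x (g⁻¹ • y)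
  rw [smul_inv_smul] at i2
  have a1 := hM x y (g • y) (g • x)
  have a2 := hM x (g • x) y (g • y)
  have t5 := M.tri x y (g • y)
  have t6 := M.tri (g • x) x y
  have t7 := M.tri x (g • y) y
  have t8 := M.tri x (g • x) y
  have s1 := M.symm (g • y) (g • x)
  have s2 := M.symm (g • x) x
  have s5 := M.symm (g • y) y
  have s6 := M.symm y x
  have s7 := M.symm (g • x) y
  have s8 := M.symm y (g • x)
  omega

lemma inv_disp {M : GMet V} (hI : Iso G M) (g : G) (x : V) :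
    M.d x (g⁻¹ • x) = M.d x (g • x) := by
  have i2 := hI g x (g⁻¹ • x)
  rw [smul_inv_smul] at i2
  rw [← i2, M.symm]

/-- I1 -/
theorem I1 : I1Statement := by
  intro G V _ _ M δ hM hI g x y p R hx hy hp h1 h2
  obtain ⟨q, q1, q2, q3, q4, -, -⟩ := shift hM hI g x y p R hx hy hp (by omega) (by omega)
  exact ⟨q, q1, by omega, q3, by omega⟩

/-- I2 -/
theorem I2 : I2Statement := by
  intro G V _ _ M δ hM hI g f x y p R hgx hgy hfx hfy hp h1 h2
  have hp' : M.d x p + M.d p y = M.d x y := hp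
  have gx' : M.d x (g⁻¹ • x) ≤ R := by rw [inv_disp hI]; exact hgx
  have gy' : M.d y (g⁻¹ • y) ≤ R := by rw [inv_disp hI]; exact hgy
  have fx' : M.d x (f⁻¹ • x) ≤ R := by rw [inv_disp hI]; exact hfx
  have fy' : M.d y (f⁻¹ • y) ≤ R := by rw [inv_disp hI]; exact hfy
  obtain ⟨bg1, bg2, bg3, bg4, bg5, bg6⟩ := shift_bounds hM hI g x y R hgx hgy (by omega)
  obtain ⟨bf1, bf2, bf3, bf4, bf5, bf6⟩ := shift_bounds hM hI f x y R hfx hfy (by omega)
  -- the point `p` moved back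
  obtain ⟨q1, b1, c1, d1, e1, f1, k1⟩ :=
    shift hM hI f⁻¹ x y p R fx' fy' hp (by omega) (by omega)
  have b1' : M.d x q1 + M.d q1 y = M.d x y := b1
  obtain ⟨q0, b0, c0, d0, e0, f0, k0⟩ :=
    shift hM hI g⁻¹ x y q1 R gx' gy' b1 (by omega) (by omega)
  have b0' : M.d x q0 + M.d q0 y = M.d x y := b0
  -- first `g`, then `f`
  obtain ⟨q2, b2, c2, d2, e2, f2, k2⟩ :=
    shift hM hI g x y q0 R hgx hgy b0 (by omega) (by omega)
  have b2' : M.d x q2 + M.d q2 y = M.d x y := b2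
  obtain ⟨q3, b3, c3, d3, e3, f3, k3⟩ :=
    shift hM hI f x y q2 R hfx hfy b2 (by omega) (by omega)
  have b3' : M.d x q3 + M.d q3 y = M.d x y := b3
  -- first `f`, then `g`
  obtain ⟨q4, b4, c4, d4, e4, f4, k4⟩ :=
    shift hM hI f x y q0 R hfx hfy b0 (by omega) (by omega)
  have b4' : M.d x q4 + M.d q4 y = M.d x y := b4
  obtain ⟨q5, b5, c5, d5, e5, f5, k5⟩ :=
    shift hM hI g x y q4 R hgx hgy b4 (by omega) (by omega)
  have b5' : M.d x q5 + M.d q5 y = M.d x y := b5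
  -- the points `q3` and `q5` are close
  have h35 := close_of_btw_le hM (4 * δ) b3 b5 (by omega) (by omega)
  -- everything together
  have hp0 : M.d (g⁻¹ • f⁻¹ • p) q0 ≤ 16 * δ := by
    have i := hI g⁻¹ (f⁻¹ • p) q1
    have t := M.tri (g⁻¹ • f⁻¹ • p) (g⁻¹ • q1) q0
    omega
  have e3' : M.d (f • g • q0) q3 ≤ 16 * δ := by
    have i := hI f (g • q0) q2
    have t := M.tri (f • g • q0) (f • q2) q3
    omega
  have e5' : M.d (g • f • q0) q5 ≤ 16 * δ := by
    have i := hI g (f • q0) q4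
    have t := M.tri (g • f • q0) (g • q4) q5
    omega
  have hpp : M.d p (f • g • q0) ≤ 16 * δ := by
    have i := hI (f * g) (g⁻¹ • f⁻¹ • p) q0
    have : (f * g) • g⁻¹ • f⁻¹ • p = p := by
      rw [mul_smul, smul_inv_smul, smul_inv_smul]
    rw [this, mul_smul] at i
    omega
  have hpp2 : M.d ((g * f * g⁻¹ * f⁻¹) • p) (g • f • q0) ≤ 16 * δ := by
    have i := hI (g * f) (g⁻¹ • f⁻¹ • p) q0
    have : (g * f * g⁻¹ * f⁻¹) • p = (g * f) • g⁻¹ • f⁻¹ • p := by
      simp only [mul_smul]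
    rw [this]
    rw [mul_smul g f q0] at i
    omega
  have t1 := M.tri p (f • g • q0) ((g * f * g⁻¹ * f⁻¹) • p)
  have t2 := M.tri (f • g • q0) q3 ((g * f * g⁻¹ * f⁻¹) • p)
  have t3 := M.tri q3 q5 ((g * f * g⁻¹ * f⁻¹) • p)
  have t4 := M.tri q5 (g • f • q0) ((g * f * g⁻¹ * f⁻¹) • p)
  have s1 := M.symm q5 (g • f • q0)
  have s2 := M.symm (g • f • q0) ((g * f * g⁻¹ * f⁻¹) • p)
  omega

/-- I3 -/
theorem I3 : I3Statement := by
  intro G V _ _ M δ hM hI g x y R hy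
  by_cases h0 : M.d x (g • x) ≤ R
  · refine ⟨x, h0, ?_⟩
    rw [M.self]
    have := le_max_right (M.d x (g • x)) R
    omega
  have hmax : max (M.d x (g • x)) R = M.d x (g • x) := max_eq_left (by omega)
  rw [hmax]
  obtain ⟨t, ht1, ht2⟩ : ∃ t, M.d x (g • x) + 4 * δ ≤ R + 2 * t ∧
      R + 2 * t ≤ M.d x (g • x) + 4 * δ + 1 :=
    ⟨(M.d x (g • x) + 4 * δ + 1 - R) / 2, by omega, by omega⟩
  by_cases h1 : M.d x y ≤ t
  · exact ⟨y, by omega, by omega⟩
  obtain ⟨x', hb, hx'⟩ := M.exists_pt x y t (by omega)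
  have hb' : M.d x x' + M.d x' y = M.d x y := hb
  have i1 := hI g x y
  have i2 := hI g x x'
  have i3 := hI g x' y
  have t1 := M.tri x y (g • y)
  have t2 := M.tri y (g • y) (g • x)
  have s1 := M.symm (g • y) (g • x)
  have := B3 V M δ hM x y (g • x) (g • y) x' (g • x') (R - 4 * δ) hb
    (by unfold GMet.Btw; omega) (by omega) (by omega) (by omega) (by omega) (by omega) (by omega)
  exact ⟨x', by omega, by omega⟩

/-- I7 -/
theorem I7 : I7Statement := by
  intro G V _ _ M δ hM hI g x y p R hm hx hy hp h1 h2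
  obtain ⟨m, hm1, hm2⟩ := hm
  have hp' : M.d x p + M.d p y = M.d x y := hp
  by_contra hcon
  obtain ⟨q, b1, c1, d1, e1, f1, k1⟩ :=
    shift hM hI g x y p R hx hy hp (by omega) (by omega)
  have b1' : M.d x q + M.d q y = M.d x y := b1
  obtain ⟨q2, b2, c2, d2, e2, f2, k2⟩ :=
    shift hM hI g x y q R hx hy b1 (by omega) (by omega)
  have b2' : M.d x q2 + M.d q2 y = M.d x y := b2
  have hpow : g ^ 2 • p = g • g • p := by rw [pow_two, mul_smul]
  -- `d (g² p) q2 ≤ 16 δ`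
  have hq2 : M.d (g • g • p) q2 ≤ 16 * δ := by
    have i := hI g (g • p) q
    have t := M.tri (g • g • p) (g • q) q2
    omega
  have t1 := M.tri x (g • g • p) q2
  have t2 := M.tri x q2 (g • g • p)
  have t3 := M.tri x p (g • g • p)
  have t4 := M.tri p (g • g • p) x
  have s1 := M.symm q2 (g • g • p)
  have s2 := M.symm p x
  have s3 := M.symm (g • g • p) x
  have t5 := M.tri p q (g • p)
  have s4 := M.symm q (g • p)
  have key : M.d p (g • p) + 2 * δ + 1 ≤ M.d p (g ^ 2 • p) := by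
    rw [hpow]
    by_cases hpos : M.d x y ≤ M.d x (g • y)
    · obtain ⟨τ, hτ⟩ := Nat.exists_eq_add_of_le hpos
      have h3 := close_of_btw_le hM (τ + 2 * δ) hp b1 (by omega) (by omega)
      omega
    · obtain ⟨τ, hτ⟩ := Nat.exists_eq_add_of_le (Nat.le_of_not_le hpos)
      have h3 := close_of_btw_le hM (τ + 2 * δ) hp b1 (by omega) (by omega)
      omega
  have h4 := GMet.I4 G V M δ hM hI g p 1 le_rfl key p m
  rw [hm2 p, M.self] at h4
  omega

end IA

end Pool.Agent.Lib.MP_7f190d_al
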