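import Pool.Agent.Lib.MP_7f190d_al.Basic

/-!
# MP_7f190d_al, module P: projections to quasi-convex sets
-/

set_option autoImplicit false

namespace Pool.Agent.Lib.MP_7f190d_al

variable {X : Type}

namespace GMet

/-- (PP), with the good constant. -/
lemma proj_pp {M : GMet X} {δ q : ℕ} {Y : Set X} (hM : M.Hyp δ) (hY : M.QC Y q) {x a y : X}
    (ha : M.Nst Y x a) (hy : y ∈ Y) : M.d x a + M.d a y ≤ M.d x y + (2 * q + 4 * δ + 1) := by
  obtain ⟨haY, hmin⟩ := ha
  have h0 := hmin y hy
  by_cases h : M.d a y < q + 2 * δ + 1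
  · omega
  · obtain ⟨p, hp, hap⟩ := M.exists_pt a y (q + 2 * δ + 1) (by omega)
    obtain ⟨y', hy', hd⟩ := hY a haY y hy p hp
    have hp' : M.d a p + M.d p y = M.d a y := hp
    have h1 := hmin y' hy'
    have h2 := M.tri x p y'
    have h3 := hM x a p y
    omega

/-- (*) -/
lemma proj_star {M : GMet X} {δ q : ℕ} {Y : Set X} (hM : M.Hyp δ) (hY : M.QC Y q) {x y a b : X}
    (ha : M.Nst Y x a) (hb : M.Nst Y y b) (h : 2 * q + 5 * δ + 1 < M.d a b) :
    M.d x a + M.d a b + M.d b y ≤ M.d x y + (4 * q + 10 * δ + 2) := by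
  have h1 := proj_pp hM hY ha hb.1
  have h2 := proj_pp hM hY hb ha.1
  have h3 := hM x y b a
  have s1 := M.symm b a
  have s2 := M.symm y b
  omega

lemma proj_x3 {M : GMet X} {δ q : ℕ} {Y : Set X} (hM : M.Hyp δ) (hY : M.QC Y q)
    {x z y a c b : X} (hz : M.Btw x z y) (ha : M.Nst Y x a) (hc : M.Nst Y z c)
    (hb : M.Nst Y y b) (h1 : 2 * q + 5 * δ + 1 < M.d a c) (h2 : 2 * q + 5 * δ + 1 < M.d c b) :
    M.d a c + M.d c b + 2 * M.d z c ≤ M.d a b + (8 * q + 20 * δ + 4) := by
  have hz' : M.d x z + M.d z y = M.d x y := hz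
  have e1 := proj_star hM hY ha hc h1
  have e2 := proj_star hM hY hc hb h2
  have t1 := M.tri x a y
  have t2 := M.tri a b y
  have s1 := M.symm c z
  omega

end GMet

theorem p_module : PStatement := by
  intro X M δ q Y hM hY e he
  have hPP : ∀ x a y, M.Nst Y x a → y ∈ Y →
      M.d x a + M.d a y ≤ M.d x y + (2 * q + 4 * δ + 1) :=
    fun x a y ha hy => GMet.proj_pp hM hY ha hy
  have hX2 : ∀ x y a b, M.Nst Y x a → M.Nst Y y b → e < M.d a b →
    (∃ p, M.Btw x p y ∧ M.d x p = M.d x a ∧ M.d p a ≤ e) ∧
      M.d x a + M.d a b + M.d b y ≤ M.d x y + e := by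
    intro x y a b ha hb hab
    have e1 := GMet.proj_star hM hY ha hb (by omega)
    refine ⟨?_, by omega⟩
    obtain ⟨p, hp, hxp⟩ := M.exists_pt x y (M.d x a) (by omega)
    refine ⟨p, hp, hxp, ?_⟩
    have hp' : M.d x p + M.d p y = M.d x y := hp
    have h1 := hM p x a y
    have t1 := M.tri a b y
    have s1 := M.symm p x
    omega
  refine ⟨?_, ?_, hX2, ?_, ?_, ?_⟩
  · intro x a y ha hy
    have := hPP x a y ha hy
    omega
  · intro x y a b ha hb
    by_cases h : 2 * q + 5 * δ + 1 < M.d a b
    · have := GMet.proj_star hM hY ha hb h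
      omega
    · omega
  · intro x z y a c b hz ha hc hb
    by_cases h1 : 2 * q + 5 * δ + 1 < M.d a c
    · by_cases h2 : 2 * q + 5 * δ + 1 < M.d c b
      · have := GMet.proj_x3 hM hY hz ha hc hb h1 h2
        omega
      · have := M.tri a b c
        have := M.symm b c
        omega
    · have := M.tri c a b
      have := M.symm c a
      omega
  · intro x z y a c b hz ha hc hb hx hy
    have hz' : M.d x z + M.d z y = M.d x y := hz
    rcases hx with hx | hx
    · rcases hy with hy | hy
      · obtain ⟨y', hy', hd⟩ := hY x hx y hy z hz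
        have := hc.2 y' hy'
        omega
      · have e1 := hPP z c x hc hx
        have e2 := GMet.proj_star hM hY hc hb (by omega)
        have t1 := M.tri x c b
        have t2 := M.tri x b y
        have s1 := M.symm c x
        have s2 := M.symm z x
        omega
    · rcases hy with hy | hy
      · have e1 := hPP z c y hc hy
        have e2 := GMet.proj_star hM hY ha hc (by omega)
        have t1 := M.tri x a y
        have t2 := M.tri a c y
        have s1 := M.symm c z
        omega
      · have := GMet.proj_x3 hM hY hz ha hc hb (by omega) (by omega)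
        have := M.tri a c b
        omega
  · intro S z w y c b hS hc hb hzc hy hw hzw
    have hw' : M.d z w + M.d w y = M.d z y := hw
    rcases hy with hy | hy
    · obtain ⟨w', hw1, hd⟩ := GMet.B2 X M δ hM z y c w hw
      rcases hw1 with hw1 | hw1
      · have hw2 : M.d z w' + M.d w' c = M.d z c := hw1
        refine ⟨c, hc.1, ?_⟩
        have := M.tri w w' c
        omega
      · obtain ⟨y', hy', hd'⟩ := hY c hc.1 y hy w' hw1
        refine ⟨y', hy', ?_⟩
        have := M.tri w w' y'
        omega
    · obtain ⟨⟨p, hp, hyp, hpb⟩, -⟩ := hX2 y z b c hb hc (by have := M.symm b c; omega)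
      have t1 := M.tri c z b
      have t2 := M.tri z p b
      have s1 := M.symm c z
      obtain ⟨w'', hw'', hd''⟩ := M.exists_pt z p (M.d z w) (by omega)
      have hcl := GMet.close_of_btw hM hw (GMet.btw_trans_left (GMet.btw_symm hp) hw'') hd''.symm
      obtain ⟨w3, hw3, hd3⟩ := GMet.B2 X M δ hM z p c w'' hw''
      rcases hw3 with hw3 | hw3
      · have hw2 : M.d z w3 + M.d w3 c = M.d z c := hw3
        refine ⟨c, hc.1, ?_⟩
        have := M.tri w w'' c
        have := M.tri w'' w3 c
        omega
      · obtain ⟨w4, hw4, hd4⟩ := GMet.B2 X M δ hM c p b w3 hw3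
        rcases hw4 with hw4 | hw4
        · obtain ⟨y', hy', hd'⟩ := hY c hc.1 b hb.1 w4 hw4
          refine ⟨y', hy', ?_⟩
          have := M.tri w w'' y'
          have := M.tri w'' w3 y'
          have := M.tri w3 w4 y'
          omega
        · have hw2 : M.d b w4 + M.d w4 p = M.d b p := hw4
          refine ⟨b, hb.1, ?_⟩
          have := M.tri w w'' b
          have := M.tri w'' w3 b
          have := M.tri w3 w4 b
          have := M.symm b p
          have := M.symm b w4
          omega

end Pool.Agent.Lib.MP_7f190d_al
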